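import Pool.Agent.W758.Uni.Khat

/-!
# UNI-KHAT, part 5: the kernels `κ_E` and `κ̂`
-/

set_option autoImplicit false

open Set MeasureTheory
open scoped ContDiff Topology

namespace Pool.Agent.W758.Uni

open Pool.Agent.W668.Uni

noncomputable section

variable {EM : EMaps} {e₀ M : ℝ}

theorem norm_w_le : ‖w‖ ≤ 1 := by
  refine (ContinuousMap.norm_le _ zero_le_one).2 fun z => ?_
  show |Real.sin _| ≤ 1
  exact Real.abs_sin_le_one _

theorem norm_le_z0 (O : Ops) {k : ℕ} {p : ℝ × E k} (hp : p ∈ domE k e₀ M) :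
    (p.1, O.lift (z0 p.2)) ∈ dom e₀ M :=
  ⟨hp.1, lt_of_le_of_lt (O.lift_norm _) hp.2⟩

theorem neg_dom {p : ℝ × Y} (hp : p ∈ dom e₀ M) : (-p.1, p.2) ∈ dom e₀ M := by
  refine ⟨?_, hp.2⟩
  show |-p.1| < e₀
  rw [abs_neg]
  exact hp.1

theorem eta_eqv {O : Ops} {η : ℝ × Y → Y} (hη : EtaSol O M e₀ η) {p : ℝ × Y}
    (hp : p ∈ dom e₀ M) (a : ℝ) : η (p.1, τY a p.2) = τY a (η p) := by
  have hp' : (p.1, τY a p.2) ∈ dom e₀ M := ⟨hp.1, lt_of_le_of_lt (norm_τY_le _ _) hp.2⟩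
  refine (hη.uniq _ hp' (τY a (η p)) ?_ ?_).symm
  · have h1 := hη.bound p hp
    have h2 := norm_τY_le a (η p)
    have h3 : |p.1| * ‖τY a (η p)‖ ≤ |p.1| * ‖η p‖ :=
      mul_le_mul_of_nonneg_left h2 (abs_nonneg _)
    show |p.1| * ‖τY a (η p)‖ ≤ 1 / 2
    linarith
  · have h1 : η p = - O.S3 (p.2 * (1 + p.1 • (w * η p))) - (p.1 / 2) • (w * η p ^ 2) := hη.eqn p hp
    have h2 := congrArg (τY a) h1
    show τY a (η p) = - O.S3 (τY a p.2 * (1 + p.1 • (w * τY a (η p))))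
      - (p.1 / 2) • (w * τY a (η p) ^ 2)
    have e1 : τY a p.2 * (1 + p.1 • (w * τY a (η p))) = τY a (p.2 * (1 + p.1 • (w * η p))) := by
      rw [τY_mul, map_add, map_smul, τY_mul, τY_one, τY_w]
    have e2 : w * τY a (η p) ^ 2 = τY a (w * η p ^ 2) := by
      rw [τY_mul, τY_pow, τY_w]
    rw [e1, e2, τY_S3, ← map_smul, ← map_neg, ← map_sub]
    exact h2

/-- `ξ = -2 S3 (F ϱ)` -/
theorem xi_eq {O : Ops} {ε : ℝ} {F η : Y} (h : EtaEq O ε F η) :
    xi ε η = (-2 : ℝ) • O.S3 (F * rho ε η) := by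
  unfold xi
  have h1 : η = - O.S3 (F * (1 + ε • (w * η))) - (ε / 2) • (w * η ^ 2) := h
  have h2 : (2 : ℝ) • η = (-2 : ℝ) • O.S3 (F * rho ε η) - ε • (w * η ^ 2) := by
    have h3 := congrArg (fun z : Y => (2 : ℝ) • z) h1
    simp only [smul_sub, smul_smul, smul_neg] at h3
    have e : (2 : ℝ) * (ε / 2) = ε := by ring
    rw [e] at h3
    unfold rho
    rw [neg_smul]
    exact h3
  rw [h2]
  abel

/-- the signed solution as a function on `ℝ × E 0` -/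
def et (O : Ops) (η : ℝ × Y → Y) (σ : ℝ) (p : ℝ × E 0) : Y := η (σ * p.1, O.lift (z0 p.2))

/-- `F` -/
def FF (O : Ops) (p : ℝ × E 0) : Y := O.lift (z0 p.2)

/-- `ϱ` -/
def Rr (O : Ops) (η : ℝ × Y → Y) (σ : ℝ) (p : ℝ × E 0) : Y := rho (σ * p.1) (et O η σ p)

/-- `w ξ` -/
def Zz (O : Ops) (η : ℝ × Y → Y) (σ : ℝ) (p : ℝ × E 0) : Y := w * xi (σ * p.1) (et O η σ p)

/-- the `V`-derivative of `w ξ` -/
def Zv (EM : EMaps) (O : Ops) (η : ℝ × Y → Y) (σ : ℝ) (p : ℝ × E 1) : Y :=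
  (-2 : ℝ) • (c * lo EM 0 (FF O) p * lo EM 0 (Rr O η σ) p)
    + (-2 : ℝ) • (c * c * lo EM 0 (fun p => xi (σ * p.1) (et O η σ p)) p)

section

variable {O : Ops} {η : ℝ × Y → Y} {σ : ℝ}

theorem sig_dom (hσ : |σ| = 1) {p : ℝ × E 0} (hp : p ∈ domE 0 e₀ M) :
    (σ * p.1, O.lift (z0 p.2)) ∈ dom e₀ M := by
  refine ⟨?_, lt_of_le_of_lt (O.lift_norm _) hp.2⟩
  show |σ * p.1| < e₀
  rw [abs_mul, hσ, one_mul]
  exact hp.1

theorem se_et (hη : EtaSol O M e₀ η) (hσ : |σ| = 1) : SE EM e₀ M 0 (et O η σ) where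
  sm := by
    have h1 : ContDiff ℝ ∞ (fun p : ℝ × E 0 => ((σ * p.1, O.lift (z0 p.2)) : ℝ × Y)) :=
      (contDiff_const.mul contDiff_fst).prodMk
        (ContDiff.comp (g := fun u : E 0 => O.lift (prL 0 0 u))
          (O.lift.comp (prL 0 0)).contDiff contDiff_snd)
    exact hη.smooth.comp h1.contDiffOn (fun p hp => sig_dom hσ hp)
  eqv := by
    intro p hp a
    show η (σ * p.1, O.lift (z0 (EM.τE 0 a p.2))) = τY a (η (σ * p.1, O.lift (z0 p.2)))
    rw [z0_τE, τY_lift]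
    exact eta_eqv hη (sig_dom hσ hp) a

theorem se_FF : SE EM e₀ M 0 (FF O) := SE.lift O (0 : Fin 1)

theorem sm_sig (σ : ℝ) : ContDiff ℝ ∞ (fun e : ℝ => σ * e) := by fun_prop

theorem se_Rr (hη : EtaSol O M e₀ η) (hσ : |σ| = 1) : SE EM e₀ M 0 (Rr O η σ) :=
  SE.gone.add ((SE.gw.mul (se_et hη hσ)).smul (r := fun e => σ * e) (sm_sig σ))

theorem sv_Zz (hη : EtaSol O M e₀ η) (hσ : |σ| = 1) :
    SV EM e₀ M 0 (Zz O η σ) (Zv EM O η σ) := by
  have hx : ∀ p ∈ domE 0 e₀ M, xi (σ * p.1) (et O η σ p)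
      = (-2 : ℝ) • O.S3 (FF O p * Rr O η σ p) := fun p hp => xi_eq (hη.eqn _ (sig_dom hσ hp))
  have hFR : SE EM e₀ M 0 (fun p => FF O p * Rr O η σ p) := se_FF.mul (se_Rr hη hσ)
  have hS : SE EM e₀ M 0 (fun p => O.S3 (FF O p * Rr O η σ p)) := hFR.clm O.S3 (τY_S3 O)
  have hX : SE EM e₀ M 0 (fun p => xi (σ * p.1) (et O η σ p)) :=
    (hS.smul (r := fun _ => -2) contDiff_const).congr hx
  refine ⟨SE.gw.mul hX, ?_, ?_⟩
  · exact ((((SE.gc.mul se_FF.lo).mul (se_Rr hη hσ).lo).smul (r := fun _ => -2)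
      contDiff_const).add (((SE.gc.mul SE.gc).mul hX.lo).smul (r := fun _ => -2)
      contDiff_const))
  · intro p hp
    have hp0 := drop_dom EM hp
    have h1 := (hasV_wS3 O (FF O (p.1, EM.drop 0 p.2) * Rr O η σ (p.1, EM.drop 0 p.2))).smul (-2)
    have e1 : Zz O η σ (p.1, EM.drop 0 p.2) = (-2 : ℝ) •
        (w * O.S3 (FF O (p.1, EM.drop 0 p.2) * Rr O η σ (p.1, EM.drop 0 p.2))) := by
      unfold Zz
      rw [hx _ hp0, mul_smul_comm]
    rw [e1]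
    refine h1.congr ?_
    show _ = (-2 : ℝ) • (c * FF O (p.1, EM.drop 0 p.2) * Rr O η σ (p.1, EM.drop 0 p.2))
      + (-2 : ℝ) • (c * c * xi (σ * p.1) (et O η σ (p.1, EM.drop 0 p.2)))
    have := hx _ hp0
    simp only at this
    rw [this, smul_add, mul_smul_comm, pow_two, mul_assoc, mul_assoc]

theorem rho_sq (ε : ℝ) (η : Y) : rho ε η ^ 2 = 1 + ε • (w * xi ε η) := by
  unfold rho xi
  ext z
  simp only [ContinuousMap.pow_apply, ContinuousMap.add_apply, ContinuousMap.one_apply,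
    ContinuousMap.smul_apply, ContinuousMap.mul_apply, smul_eq_mul]
  ring

theorem rho_pos (hη : EtaSol O M e₀ η) {p : ℝ × Y} (hp : p ∈ dom e₀ M) (y t : ℝ) :
    0 < evY (rho p.1 (η p)) y t := by
  unfold rho
  rw [evY_add, evY_one, evY_smul, evY_mul]
  have h1 := abs_evY_le (η p) y t
  have h2 := (abs_evY_le w y t).trans norm_w_le
  have h3 := hη.bound p hp
  have h4 : |p.1 * (evY w y t * evY (η p) y t)| ≤ 1 / 4 := by
    rw [abs_mul, abs_mul]
    calc |p.1| * (|evY w y t| * |evY (η p) y t|) ≤ |p.1| * (1 * ‖η p‖) := by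
          gcongr
      _ ≤ 1 / 4 := by rw [one_mul]; exact h3
  have := (abs_le.1 h4).1
  linarith

theorem isUnit_Y {h : Y} (H : ∀ y t : ℝ, 0 ≤ t → t ≤ Real.pi / 2 → evY h y t ≠ 0) :
    IsUnit h := by
  rw [ContinuousMap.isUnit_iff_forall_ne_zero]
  rintro ⟨⟨y', hy'⟩, ⟨t', ht'⟩⟩
  have := H y' t' ht'.1 ht'.2
  unfold evY at this
  rwa [Set.projIcc_of_mem _ hy', Set.projIcc_of_mem _ ht'] at this

theorem isUnit_rho (hη : EtaSol O M e₀ η) {p : ℝ × Y} (hp : p ∈ dom e₀ M) :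
    IsUnit (rho p.1 (η p)) := isUnit_Y fun y t _ _ => (rho_pos hη hp y t).ne'

theorem isUnit_dd (hη : EtaSol O M e₀ η) {p : ℝ × Y} (hp : p ∈ dom e₀ M) :
    IsUnit (dd p.1 (η p)) := by
  refine isUnit_Y fun y t h0 h1 => ne_of_gt ?_
  have e1 : evY (rho p.1 (η p)) y t ^ 2 = 1 + p.1 * (evY w y t * evY (xi p.1 (η p)) y t) := by
    rw [← evY_pow, rho_sq, evY_add, evY_one, evY_smul, evY_mul]
  have e2 : evY (dd p.1 (η p)) y t
      = Real.cos t ^ 2 + Real.sin t ^ 2 * evY (rho p.1 (η p)) y t ^ 2 := by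
    unfold dd
    rw [e1, evY_add, evY_one, evY_smul, evY_mul, evY_pow, evY_w y t h0 h1]
    have := Real.sin_sq_add_cos_sq t
    linear_combination -this
  rw [e2]
  have hr := rho_pos hη hp y t
  rcases h0.lt_or_eq with h | h
  · have hs : 0 < Real.sin t := Real.sin_pos_of_pos_of_lt_pi h (by linarith [Real.pi_pos])
    positivity
  · subst h
    simp

theorem sv_Rr (hη : EtaSol O M e₀ η) (hσ : |σ| = 1) :
    SV EM e₀ M 0 (Rr O η σ)
      (fun p => (1 / 2 : ℝ) • ((σ * p.1) • Zv EM O η σ p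
        * Ring.inverse (lo EM 0 (Rr O η σ) p))) := by
  have hZ := sv_Zz (EM := EM) hη hσ
  have hG := SV.gone.add (hZ.smul (r := fun e => σ * e) (sm_sig σ))
  have hu : ∀ p ∈ domE 0 e₀ M, IsUnit (Rr O η σ p) := fun p hp => isUnit_rho hη (sig_dom hσ hp)
  refine ⟨se_Rr hη hσ, ?_, ?_⟩
  · exact ((hZ.s2.smul (r := fun e => σ * e) (sm_sig σ)).mul
      ((se_Rr hη hσ).lo.inv fun p hp => hu _ (drop_dom EM hp))).smul (r := fun _ => 1 / 2)
      contDiff_const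
  · intro p hp
    have hp0 := drop_dom EM hp
    have h1 := hG.v p hp
    simp only [zero_add] at h1
    exact HasV.root (rho_sq _ _) (fun y t => rho_pos hη (sig_dom hσ hp0) y t) h1

theorem vd_Rr (hη : EtaSol O M e₀ η) (hσ : |σ| = 1) : VD EM e₀ M 0 (Rr O η σ) :=
  (sv_Rr hη hσ).vd

theorem good_FF : Good EM e₀ M (FF O) := Good.lift O

theorem vd_wZv (hη : EtaSol O M e₀ η) (hσ : |σ| = 1) :
    VD EM e₀ M 1 (fun p => w * Zv EM O η σ p) := by
  have hZ := sv_Zz (EM := EM) hη hσ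
  have hR := (vd_Rr (EM := EM) hη hσ).lo
  have hF := (good_FF (EM := EM) (e₀ := e₀) (M := M) (O := O)).vd1
  have hZ1 := hZ.vd.lo
  have hw : VD EM e₀ M 1 (fun _ => w) := SV.gw.vd
  have hc : VD EM e₀ M 1 (fun _ => c) := SV.gc.vd
  have h1 := ((hw.mul (hc.mul hF)).mul hR).smul (r := fun _ => -2) contDiff_const
  have h2 := ((hc.mul hc).mul hZ1).smul (r := fun _ => -2) contDiff_const
  refine (h1.add h2).congr fun p _ => ?_
  show w * ((-2 : ℝ) • (c * lo EM 0 (FF O) p * lo EM 0 (Rr O η σ) p)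
      + (-2 : ℝ) • (c * c * xi (σ * p.1) (et O η σ (p.1, EM.drop 0 p.2))))
    = (-2 : ℝ) • (w * (c * lo EM 0 (FF O) p) * lo EM 0 (Rr O η σ) p)
      + (-2 : ℝ) • (c * c * (w * xi (σ * p.1) (et O η σ (p.1, EM.drop 0 p.2))))
  rw [mul_add, mul_smul_comm, mul_smul_comm]
  congr 2
  · ring
  · ring

theorem good_Zz (hη : EtaSol O M e₀ η) (hσ : |σ| = 1) : Good EM e₀ M (Zz O η σ) :=
  (sv_Zz hη hσ).good (vd_wZv hη hσ)

theorem good_Rr (hη : EtaSol O M e₀ η) (hσ : |σ| = 1) : Good EM e₀ M (Rr O η σ) := by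
  have hu : ∀ p ∈ domE 0 e₀ M, IsUnit (Rr O η σ p) := fun p hp => isUnit_rho hη (sig_dom hσ hp)
  refine (sv_Rr hη hσ).good ?_
  have hR := (vd_Rr (EM := EM) hη hσ).lo
  have hRi := hR.inv (fun p hp => hu _ (drop_dom EM hp))
  have h1 := (((vd_wZv (EM := EM) hη hσ).smul (r := fun e => σ * e) (sm_sig σ)).mul
    hRi).smul (r := fun _ => 1 / 2) contDiff_const
  refine h1.congr fun p _ => ?_
  rw [mul_smul_comm, ← mul_assoc, mul_smul_comm]

/-- the functions of the problem, as functions on `ℝ × E 0` -/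
theorem good_ri (hη : EtaSol O M e₀ η) (hσ : |σ| = 1) :
    Good EM e₀ M (fun p => rhoi (σ * p.1) (et O η σ p)) :=
  (good_Rr hη hσ).inv fun _ hp => isUnit_rho hη (sig_dom hσ hp)

theorem good_di (hη : EtaSol O M e₀ η) (hσ : |σ| = 1) :
    Good EM e₀ M (fun p => di (σ * p.1) (et O η σ p)) := by
  have h1 : Good EM e₀ M (fun p => dd (σ * p.1) (et O η σ p)) := by
    have h2 : Good EM e₀ M (fun p => 1 + (σ * p.1) • (w * w * Zz O η σ p)) := Good.gone.add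
      (((Good.gw.mul Good.gw).mul (good_Zz hη hσ)).smul (r := fun e => σ * e) (sm_sig σ))
    refine h2.congr fun p _ => ?_
    show 1 + (σ * p.1) • (w ^ 3 * xi (σ * p.1) (et O η σ p))
      = 1 + (σ * p.1) • (w * w * (w * xi (σ * p.1) (et O η σ p)))
    congr 2
    ring
  exact h1.inv fun _ hp => isUnit_dd hη (sig_dom hσ hp)

theorem good_Gam (hη : EtaSol O M e₀ η) (hσ : |σ| = 1) :
    Good EM e₀ M (fun p => Gam O (σ * p.1) (FF O p) (et O η σ p)) :=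
  ((good_FF.mul (good_ri hη hσ)).J O).smul (r := fun e => σ * e) (sm_sig σ)

theorem good_EE (hη : EtaSol O M e₀ η) (hσ : |σ| = 1) :
    Good EM e₀ M (fun p => EE O (σ * p.1) (FF O p) (et O η σ p)) :=
  (good_Gam hη hσ).exp

theorem good_Ei (hη : EtaSol O M e₀ η) (hσ : |σ| = 1) :
    Good EM e₀ M (fun p => Ei O (σ * p.1) (FF O p) (et O η σ p)) :=
  (good_Gam hη hσ).neg.exp

theorem good_KK (hη : EtaSol O M e₀ η) (hσ : |σ| = 1) :
    Good EM e₀ M (fun p => KK O (σ * p.1) (FF O p) (et O η σ p)) := by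
  have h1 := ((((good_FF (O := O)).mul Good.gw).mul Good.gc).mul
    ((good_di (EM := EM) hη hσ).mul (good_di hη hσ))).mul (good_Ei hη hσ)
  refine (h1.K O).congr fun p _ => ?_
  unfold KK
  rw [pow_two]

/-- `κ_E` and `κ̂` on `ℝ × E 0` -/
theorem good_kE (hη : EtaSol O M e₀ η) :
    Good EM e₀ M (fun p => kE η (p.1, FF O p)) := by
  have h1 : |(1 : ℝ)| = 1 := abs_one
  have h2 : |(-1 : ℝ)| = 1 := by rw [abs_neg, abs_one]
  have h := (((((Good.gw (EM := EM)).mul Good.gc).mul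
    ((good_Zz hη h1).add (good_Zz hη h2))).mul (good_di hη h1)).mul (good_di hη h2)).neg
  refine h.congr fun p _ => ?_
  have e1 : et O η 1 p = η (p.1, FF O p) := by
    show η (1 * p.1, FF O p) = _
    rw [one_mul]
  have e2 : et O η (-1) p = η (-p.1, FF O p) := by
    show η (-1 * p.1, FF O p) = _
    rw [neg_one_mul]
  unfold Zz
  rw [e1, e2, one_mul, neg_one_mul]
  show -(w ^ 2 * c * (xi p.1 (η (p.1, FF O p)) + xi (-p.1) (η (-p.1, FF O p)))
    * di p.1 (η (p.1, FF O p)) * di (-p.1) (η (-p.1, FF O p))) = _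
  ring

theorem good_kH (hη : EtaSol O M e₀ η) :
    Good EM e₀ M (fun p => kH O η (p.1, FF O p)) := by
  have h1 : |(1 : ℝ)| = 1 := abs_one
  have h2 : |(-1 : ℝ)| = 1 := by rw [abs_neg, abs_one]
  have g1 := ((good_Rr (EM := EM) hη h1).mul (good_EE hη h1)).mul (good_KK hη h1)
  have g2 := ((good_Rr (EM := EM) hη h2).mul (good_EE hη h2)).mul (good_KK hη h2)
  have h := (good_kE (EM := EM) hη).add ((g1.add g2).smul (r := fun _ => 2) contDiff_const)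
  refine h.congr fun p _ => ?_
  have e1 : et O η 1 p = η (p.1, FF O p) := by
    show η (1 * p.1, FF O p) = _
    rw [one_mul]
  have e2 : et O η (-1) p = η (-p.1, FF O p) := by
    show η (-1 * p.1, FF O p) = _
    rw [neg_one_mul]
  unfold Rr
  rw [e1, e2, one_mul, neg_one_mul]
  rfl

end

/-- UNI-KHAT -/
theorem khat : P_khat := by
  intro O EM M e₀ η hη
  obtain ⟨jE, sE, hE⟩ := (good_kE (EM := EM) hη).jet
  obtain ⟨jH, sH, hH⟩ := (good_kH (EM := EM) hη).jet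
  refine ⟨jE, jH, sE, sH, fun p hp => ?_⟩
  have e : FF O (p.1, EM.drop 0 (EM.drop 1 p.2)) = O.lift (z0 p.2) := by
    show O.lift (z0 (EM.drop 0 (EM.drop 1 p.2))) = _
    rw [z0_drop, z0_drop]
  refine ⟨(hE p hp).1, ?_, (hH p hp).1, ?_⟩
  · rw [(hE p hp).2, e]
  · rw [(hH p hp).2, e]

end

end Pool.Agent.W758.Uni
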