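import Pool.Agent.W758.Uni.Bas

/-!
# UNI-KHAT, part 2: smooth equivariant functions on `ℝ × E k` and their `D`-derivatives
-/

set_option autoImplicit false

open Set MeasureTheory
open scoped ContDiff Topology

namespace Pool.Agent.W758.Uni

open Pool.Agent.W668.Uni

noncomputable section

/-! ### derivatives on `X` -/

theorem E_rel {k : ℕ} (u : E k) (i : Fin k) (a : ℝ) (ha : 0 ≤ a) (x : ℝ) (h0 : 0 ≤ x)
    (h1 : x ≤ 1) : evX ((u : Fin (k + 1) → X) i.castSucc) x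
      - evX ((u : Fin (k + 1) → X) i.castSucc) (Real.exp (-a) * x)
      = ∫ s in (0 : ℝ)..a, evX ((u : Fin (k + 1) → X) i.succ) (Real.exp (-s) * x) :=
  u.2 i a ha x h0 h1

/-- the integrated relation `f₁ = D f` -/
def Rel (f f₁ : X) : Prop := ∀ a : ℝ, 0 ≤ a → ∀ x : ℝ, 0 ≤ x → x ≤ 1 →
  evX f x - evX f (Real.exp (-a) * x) = ∫ s in (0 : ℝ)..a, evX f₁ (Real.exp (-s) * x)

theorem Rel.hasDerivAt {f f₁ : X} (H : Rel f f₁) (x : ℝ) (h0 : 0 < x) (h1 : x < 1) :
    HasDerivAt (evX f) (evX f₁ x / x) x := by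
  have hc : Continuous (fun s : ℝ => evX f₁ (Real.exp (-s) * 1)) :=
    (continuous_evX f₁).comp (by fun_prop)
  have hl : 0 < -Real.log x := by
    have := Real.log_neg h0 h1
    linarith
  have d1 : HasDerivAt (fun a => ∫ s in (0 : ℝ)..a, evX f₁ (Real.exp (-s) * 1))
      (evX f₁ (Real.exp (-(-Real.log x)) * 1)) (-Real.log x) :=
    intervalIntegral.integral_hasDerivAt_right (hc.intervalIntegrable _ _)
      (hc.stronglyMeasurableAtFilter _ _) hc.continuousAt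
  have d2 : HasDerivAt (fun x' => -Real.log x') (-x⁻¹) x := (Real.hasDerivAt_log h0.ne').neg
  have d3 := (d1.comp x d2).const_sub (evX f 1)
  have e : evX f =ᶠ[𝓝 x] fun x' => evX f 1
      - ((fun a => ∫ s in (0 : ℝ)..a, evX f₁ (Real.exp (-s) * 1)) ∘ fun x' => -Real.log x') x' := by
    filter_upwards [isOpen_Ioo.mem_nhds (⟨h0, h1⟩ : x ∈ Ioo (0 : ℝ) 1)] with x' hx'
    have hl' : 0 ≤ -Real.log x' := by
      have := Real.log_neg hx'.1 hx'.2
      linarith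
    have := H (-Real.log x') hl' 1 zero_le_one le_rfl
    rw [Function.comp_apply, ← this, neg_neg, Real.exp_log hx'.1, mul_one]
    ring
  refine (d3.congr_of_eventuallyEq e).congr_deriv ?_
  rw [neg_neg, Real.exp_log h0, mul_one]
  ring

theorem continuous_τX (f : X) : Continuous (fun a : ℝ => τX a f) := by
  refine ContinuousMap.continuous_of_continuous_uncurry _ ?_
  have : Continuous (fun p : ℝ × I1 => f (dil p.1 p.2)) := by
    refine f.continuous.comp ?_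
    refine Continuous.subtype_mk ?_ _
    fun_prop
  exact this

theorem evX_τX' (a : ℝ) (ha : 0 ≤ a) (f : X) (x : ℝ) (h0 : 0 ≤ x) (h1 : x ≤ 1) :
    evX (τX a f) x = evX f (Real.exp (-a) * x) := by
  rw [evX_τX a f x h0 h1, abs_of_nonneg ha]

/-- evaluation as a continuous linear functional on `X` -/
def evLX (x : ℝ) : X →L[ℝ] ℝ :=
  LinearMap.mkContinuous
    { toFun := fun h => evX h x
      map_add' := fun _ _ => rfl
      map_smul' := fun _ _ => rfl } 1 (by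
      intro h
      rw [one_mul]
      exact ContinuousMap.norm_coe_le_norm h _)

theorem evLX_apply (x : ℝ) (h : X) : evLX x h = evX h x := rfl

theorem Rel.curve {f f₁ : X} (H : Rel f f₁) (a : ℝ) (ha : 0 < a) :
    HasDerivAt (fun a => τX a f) (-τX a f₁) a := by
  have hc : Continuous (fun s : ℝ => τX s f₁) := continuous_τX f₁
  have d1 : HasDerivAt (fun a => ∫ s in (0 : ℝ)..a, τX s f₁) (τX a f₁) a :=
    intervalIntegral.integral_hasDerivAt_right (hc.intervalIntegrable _ _)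
      (hc.stronglyMeasurableAtFilter _ _) hc.continuousAt
  have d2 := d1.const_sub f
  refine d2.congr_of_eventuallyEq ?_
  filter_upwards [isOpen_Ioi.mem_nhds (show a ∈ Ioi (0 : ℝ) from ha)] with b hb
  refine evX_ext fun x h0 h1 => ?_
  have hb' : (0 : ℝ) ≤ b := le_of_lt hb
  have e1 : evX (f - ∫ s in (0 : ℝ)..b, τX s f₁) x
      = evX f x - evX (∫ s in (0 : ℝ)..b, τX s f₁) x := rfl
  have e2 : evX (∫ s in (0 : ℝ)..b, τX s f₁) x = ∫ s in (0 : ℝ)..b, evX (τX s f₁) x := by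
    have := (evLX x).intervalIntegral_comp_comm (hc.intervalIntegrable (μ := volume) 0 b)
    simpa only [evLX_apply] using this.symm
  have e3 : (∫ s in (0 : ℝ)..b, evX (τX s f₁) x)
      = ∫ s in (0 : ℝ)..b, evX f₁ (Real.exp (-s) * x) := by
    refine intervalIntegral.integral_congr fun s hs => ?_
    rw [uIcc_of_le hb'] at hs
    exact evX_τX' s hs.1 f₁ x h0 h1
  rw [e1, e2, e3, ← H b hb' x h0 h1, evX_τX' b hb' f x h0 h1]
  ring

/-! ### `E k` -/

instance instNG (k : ℕ) : NormedAddCommGroup (E k) := Submodule.normedAddCommGroup (E k)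
instance instNS (k : ℕ) : NormedSpace ℝ (E k) := Submodule.normedSpace (E k)
instance instNG2 (k : ℕ) : NormedAddCommGroup (ℝ × E k) := Prod.normedAddCommGroup
instance instNS2 (k : ℕ) : NormedSpace ℝ (ℝ × E k) := Prod.normedSpace
instance instNG3 (k : ℕ) : NormedAddCommGroup (ℝ × E k →L[ℝ] Y) :=
  ContinuousLinearMap.toNormedAddCommGroup
instance instNS3 (k : ℕ) : NormedSpace ℝ (ℝ × E k →L[ℝ] Y) :=
  ContinuousLinearMap.toNormedSpace

theorem hasDerivAt_sub {V : Type*} [NormedAddCommGroup V] [NormedSpace ℝ V]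
    (S : Submodule ℝ V) (f : ℝ → S) (f' : S) (x : ℝ)
    (h : HasDerivAt (fun a => (f a : V)) (f' : V) x) : HasDerivAt f f' x := by
  rw [hasDerivAt_iff_isLittleO] at h ⊢
  refine Asymptotics.isLittleO_norm_left.1 ?_
  have h2 := Asymptotics.isLittleO_norm_left.2 h
  exact h2

theorem E_rel' {k : ℕ} (EM : EMaps) (u : E (k + 1)) (i : Fin (k + 1)) :
    Rel ((EM.drop k u : Fin (k + 1) → X) i) ((EM.sh k u : Fin (k + 1) → X) i) := by
  intro a ha x h0 h1
  rw [EM.drop_ev, EM.sh_ev]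
  exact u.2 i a ha x h0 h1

theorem curve_E {k : ℕ} (EM : EMaps) (u : E (k + 1)) (a : ℝ) (ha : 0 < a) :
    HasDerivAt (fun a => EM.τE k a (EM.drop k u)) (-EM.τE k a (EM.sh k u)) a := by
  refine hasDerivAt_sub _ _ _ _ ?_
  rw [hasDerivAt_pi]
  intro i
  have e1 : (fun a => (EM.τE k a (EM.drop k u) : Fin (k + 1) → X) i)
      = fun a => τX a ((EM.drop k u : Fin (k + 1) → X) i) := by
    funext a; exact EM.τE_ev k a _ i
  have e2 : ((-EM.τE k a (EM.sh k u) : E k) : Fin (k + 1) → X) i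
      = -τX a ((EM.sh k u : Fin (k + 1) → X) i) := by
    rw [Submodule.coe_neg, Pi.neg_apply, EM.τE_ev]
  rw [e1, e2]
  exact (E_rel' EM u i).curve a ha

theorem z0_drop {k : ℕ} (EM : EMaps) (u : E (k + 1)) : z0 (EM.drop k u) = z0 u := by
  unfold z0
  rw [EM.drop_ev]
  rfl

theorem z0_τE {k : ℕ} (EM : EMaps) (a : ℝ) (u : E k) : z0 (EM.τE k a u) = τX a (z0 u) := by
  unfold z0
  rw [EM.τE_ev]

/-- the components as continuous linear maps -/
def prL (k : ℕ) (i : Fin (k + 1)) : E k →L[ℝ] X :=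
  (ContinuousLinearMap.proj (R := ℝ) (φ := fun _ : Fin (k + 1) => X) i).comp (E k).subtypeL

theorem prL_apply (k : ℕ) (i : Fin (k + 1)) (u : E k) :
    prL k i u = (u : Fin (k + 1) → X) i := rfl

theorem z0_eq {k : ℕ} (u : E k) : z0 u = prL k 0 u := rfl

theorem continuous_z0 (k : ℕ) : Continuous (z0 (k := k)) := (prL k 0).continuous

theorem isOpen_domE (k : ℕ) (e₀ M : ℝ) : IsOpen (domE k e₀ M) := by
  unfold domE
  have h1 : Continuous (fun p : ℝ × E k => |p.1|) := continuous_fst.abs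
  have h2 : Continuous (fun p : ℝ × E k => ‖z0 p.2‖) :=
    ((continuous_z0 k).comp continuous_snd).norm
  exact (isOpen_lt h1 continuous_const).inter (isOpen_lt h2 continuous_const)

variable {EM : EMaps} {e₀ M : ℝ}

theorem drop_dom {k : ℕ} (EM : EMaps) {p : ℝ × E (k + 1)} (hp : p ∈ domE (k + 1) e₀ M) :
    (p.1, EM.drop k p.2) ∈ domE k e₀ M := by
  refine ⟨hp.1, ?_⟩
  show ‖z0 (EM.drop k p.2)‖ < M
  rw [z0_drop]
  exact hp.2

theorem τ_dom {k : ℕ} (EM : EMaps) {p : ℝ × E k} (hp : p ∈ domE k e₀ M) (a : ℝ) :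
    (p.1, EM.τE k a p.2) ∈ domE k e₀ M := by
  refine ⟨hp.1, ?_⟩
  show ‖z0 (EM.τE k a p.2)‖ < M
  rw [z0_τE]
  exact lt_of_le_of_lt (norm_τX_le _ _) hp.2

/-- smooth equivariant functions -/
structure SE (EM : EMaps) (e₀ M : ℝ) (k : ℕ) (Φ : ℝ × E k → Y) : Prop where
  sm : ContDiffOn ℝ ∞ Φ (domE k e₀ M)
  eqv : ∀ p ∈ domE k e₀ M, ∀ a : ℝ, Φ (p.1, EM.τE k a p.2) = τY a (Φ p)

/-- the `D`-derivative of a function on `ℝ × E k` is a function on `ℝ × E (k+1)` -/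
def DD (EM : EMaps) (k : ℕ) (Φ : ℝ × E k → Y) : ℝ × E (k + 1) → Y :=
  fun p => fderiv ℝ Φ (p.1, EM.drop k p.2) (0, EM.sh k p.2)

/-- precomposition with `drop` -/
def lo (EM : EMaps) (k : ℕ) (Φ : ℝ × E k → Y) : ℝ × E (k + 1) → Y :=
  fun p => Φ (p.1, EM.drop k p.2)

theorem SE.diffAt {k : ℕ} {Φ : ℝ × E k → Y} (H : SE EM e₀ M k Φ) {p : ℝ × E k}
    (hp : p ∈ domE k e₀ M) : DifferentiableAt ℝ Φ p :=
  (H.sm.contDiffAt ((isOpen_domE k e₀ M).mem_nhds hp)).differentiableAt (by simp)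

theorem hasDerivAt_line {k : ℕ} {Φ : ℝ × E k → Y} {p : ℝ × E k} (h : DifferentiableAt ℝ Φ p)
    (g : E k) : HasDerivAt (fun s : ℝ => Φ (p.1, p.2 + s • g)) (fderiv ℝ Φ p (0, g)) 0 := by
  have h1 : HasDerivAt (fun s : ℝ => ((p.1, p.2 + s • g) : ℝ × E k)) (0, g) 0 := by
    refine (hasDerivAt_const (0 : ℝ) p.1).prodMk ?_
    have := ((hasDerivAt_id (0 : ℝ)).smul_const g).const_add p.2
    simpa using this
  have h2 : HasFDerivAt Φ (fderiv ℝ Φ p) ((fun s : ℝ => ((p.1, p.2 + s • g) : ℝ × E k)) 0) := by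
    simpa using h.hasFDerivAt
  exact h2.comp_hasDerivAt 0 h1

theorem SE.fderiv_eqv {k : ℕ} {Φ : ℝ × E k → Y} (H : SE EM e₀ M k Φ) {p : ℝ × E k}
    (hp : p ∈ domE k e₀ M) (a : ℝ) (g : E k) :
    fderiv ℝ Φ (p.1, EM.τE k a p.2) (0, EM.τE k a g) = τY a (fderiv ℝ Φ p (0, g)) := by
  have h1 := hasDerivAt_line (H.diffAt (τ_dom EM hp a)) (EM.τE k a g)
  have h2 := (τY a).hasFDerivAt.comp_hasDerivAt 0 (hasDerivAt_line (H.diffAt hp) g)
  refine h1.unique (h2.congr_of_eventuallyEq ?_)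
  have hcont : ContinuousAt (fun s : ℝ => ((p.1, p.2 + s • g) : ℝ × E k)) 0 := by fun_prop
  have hmem : ∀ᶠ s : ℝ in 𝓝 0, ((p.1, p.2 + s • g) : ℝ × E k) ∈ domE k e₀ M := by
    refine hcont.eventually_mem ?_
    refine (isOpen_domE k e₀ M).mem_nhds ?_
    simpa using hp
  filter_upwards [hmem] with s hs
  have := H.eqv _ hs a
  simp only [Function.comp_apply]
  rw [← this]
  simp only [map_add, map_smul]

theorem SE.hasD {k : ℕ} {Φ : ℝ × E k → Y} (H : SE EM e₀ M k Φ) {p : ℝ × E (k + 1)}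
    (hp : p ∈ domE (k + 1) e₀ M) : HasD (lo EM k Φ p) (DD EM k Φ p) := by
  intro y t h0 h1 _ _
  have hl : 0 < -Real.log y := by
    have := Real.log_neg h0 h1
    linarith
  set a : ℝ := -Real.log y with ha
  have hp' := drop_dom EM hp
  have d1 : HasDerivAt (fun a => ((p.1, EM.τE k a (EM.drop k p.2)) : ℝ × E k))
      (0, -EM.τE k a (EM.sh k p.2)) a :=
    (hasDerivAt_const a p.1).prodMk (curve_E EM p.2 a hl)
  have d2 : HasDerivAt (fun a => Φ (p.1, EM.τE k a (EM.drop k p.2)))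
      (fderiv ℝ Φ (p.1, EM.τE k a (EM.drop k p.2)) (0, -EM.τE k a (EM.sh k p.2))) a :=
    (H.diffAt (τ_dom EM hp' a)).hasFDerivAt.comp_hasDerivAt a d1
  have d3 := (evL 1 t).hasFDerivAt.comp_hasDerivAt a d2
  have d4 : HasDerivAt (fun x' => -Real.log x') (-y⁻¹) y := (Real.hasDerivAt_log h0.ne').neg
  have d5 := d3.comp y d4
  have e : (fun y' => evY (lo EM k Φ p) y' t) =ᶠ[𝓝 y]
      (((evL 1 t) ∘ fun a => Φ (p.1, EM.τE k a (EM.drop k p.2))) ∘ fun x' => -Real.log x') := by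
    filter_upwards [isOpen_Ioo.mem_nhds (⟨h0, h1⟩ : y ∈ Ioo (0 : ℝ) 1)] with y' hy'
    have hl' : 0 ≤ -Real.log y' := by
      have := Real.log_neg hy'.1 hy'.2
      linarith
    have e1 := H.eqv _ hp' (-Real.log y')
    simp only [Function.comp_apply]
    simp only at e1
    rw [e1, evL_apply, evY_τY _ _ _ _ zero_le_one le_rfl, abs_of_nonneg hl', neg_neg,
      Real.exp_log hy'.1, mul_one]
    rfl
  refine (d5.congr_of_eventuallyEq e).congr_deriv ?_
  have e2 : ((0, -EM.τE k a (EM.sh k p.2)) : ℝ × E k) = -(0, EM.τE k a (EM.sh k p.2)) := by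
    ext1
    · simp
    · rfl
  rw [e2, map_neg, H.fderiv_eqv hp' a (EM.sh k p.2), map_neg, evL_apply,
    evY_τY _ _ _ _ zero_le_one le_rfl, abs_of_pos hl, ha, neg_neg, Real.exp_log h0, mul_one]
  show -evY (DD EM k Φ p) y t * -y⁻¹ = evY (DD EM k Φ p) y t / y
  field_simp

theorem lo_cd (EM : EMaps) (k : ℕ) :
    ContDiff ℝ ∞ (fun p : ℝ × E (k + 1) => ((p.1, EM.drop k p.2) : ℝ × E k)) :=
  contDiff_fst.prodMk (ContDiff.comp (g := fun u : E (k + 1) => EM.drop k u)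
    (EM.drop k).contDiff contDiff_snd)

theorem SE.lo {k : ℕ} {Φ : ℝ × E k → Y} (H : SE EM e₀ M k Φ) :
    SE EM e₀ M (k + 1) (lo EM k Φ) where
  sm := H.sm.comp (lo_cd EM k).contDiffOn (fun _ hp => drop_dom EM hp)
  eqv := by
    intro p hp a
    have e : EM.drop k (EM.τE (k + 1) a p.2) = EM.τE k a (EM.drop k p.2) := by
      apply Subtype.ext
      funext i
      rw [EM.drop_ev, EM.τE_ev, EM.τE_ev, EM.drop_ev]
    show Φ (p.1, EM.drop k (EM.τE (k + 1) a p.2)) = τY a (Φ (p.1, EM.drop k p.2))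
    rw [e]
    exact H.eqv _ (drop_dom EM hp) a

theorem SE.DD {k : ℕ} {Φ : ℝ × E k → Y} (H : SE EM e₀ M k Φ) :
    SE EM e₀ M (k + 1) (DD EM k Φ) where
  sm := by
    have h1 : ContDiffOn ℝ ∞ (fderiv ℝ Φ) (domE k e₀ M) :=
      H.sm.fderiv_of_isOpen (isOpen_domE k e₀ M) (by simp)
    have h2 : ContDiffOn ℝ ∞ (fun p : ℝ × E (k + 1) => fderiv ℝ Φ (p.1, EM.drop k p.2))
        (domE (k + 1) e₀ M) := h1.comp (lo_cd EM k).contDiffOn (fun _ hp => drop_dom EM hp)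
    have h3 : ContDiff ℝ ∞ (fun p : ℝ × E (k + 1) => (((0 : ℝ), EM.sh k p.2) : ℝ × E k)) :=
      contDiff_const.prodMk (ContDiff.comp (g := fun u : E (k + 1) => EM.sh k u)
        (EM.sh k).contDiff contDiff_snd)
    exact h2.clm_apply h3.contDiffOn
  eqv := by
    intro p hp a
    have e : EM.drop k (EM.τE (k + 1) a p.2) = EM.τE k a (EM.drop k p.2) := by
      apply Subtype.ext
      funext i
      rw [EM.drop_ev, EM.τE_ev, EM.τE_ev, EM.drop_ev]
    have e' : EM.sh k (EM.τE (k + 1) a p.2) = EM.τE k a (EM.sh k p.2) := by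
      apply Subtype.ext
      funext i
      rw [EM.sh_ev, EM.τE_ev, EM.τE_ev, EM.sh_ev]
    show fderiv ℝ Φ (p.1, EM.drop k (EM.τE (k + 1) a p.2)) (0, EM.sh k (EM.τE (k + 1) a p.2))
      = τY a (fderiv ℝ Φ (p.1, EM.drop k p.2) (0, EM.sh k p.2))
    rw [e, e']
    exact H.fderiv_eqv (drop_dom EM hp) a (EM.sh k p.2)

/-! ### closure properties of `SE` -/

theorem SE.add {k : ℕ} {Φ Ψ : ℝ × E k → Y} (H : SE EM e₀ M k Φ) (G : SE EM e₀ M k Ψ) :
    SE EM e₀ M k (fun p => Φ p + Ψ p) where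
  sm := H.sm.add G.sm
  eqv := by
    intro p hp a
    rw [H.eqv p hp a, G.eqv p hp a, map_add]

theorem SE.mul {k : ℕ} {Φ Ψ : ℝ × E k → Y} (H : SE EM e₀ M k Φ) (G : SE EM e₀ M k Ψ) :
    SE EM e₀ M k (fun p => Φ p * Ψ p) where
  sm := H.sm.mul G.sm
  eqv := by
    intro p hp a
    rw [H.eqv p hp a, G.eqv p hp a, τY_mul]

theorem SE.neg {k : ℕ} {Φ : ℝ × E k → Y} (H : SE EM e₀ M k Φ) :
    SE EM e₀ M k (fun p => -Φ p) where
  sm := H.sm.neg
  eqv := by
    intro p hp a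
    rw [H.eqv p hp a, map_neg]

theorem SE.smul {k : ℕ} {Φ : ℝ × E k → Y} (H : SE EM e₀ M k Φ) {r : ℝ → ℝ}
    (hr : ContDiff ℝ ∞ r) : SE EM e₀ M k (fun p => r p.1 • Φ p) where
  sm := (hr.comp contDiff_fst).contDiffOn.smul H.sm
  eqv := by
    intro p hp a
    rw [H.eqv p hp a, map_smul]

theorem SE.const {k : ℕ} (h : Y) (hh : ∀ a, τY a h = h) :
    SE EM e₀ M k (fun _ => h) where
  sm := contDiffOn_const
  eqv := by
    intro p hp a
    rw [hh]

theorem SE.clm {k : ℕ} {Φ : ℝ × E k → Y} (H : SE EM e₀ M k Φ) (L : Y →L[ℝ] Y)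
    (hL : ∀ a h, L (τY a h) = τY a (L h)) : SE EM e₀ M k (fun p => L (Φ p)) where
  sm := L.contDiff.comp_contDiffOn H.sm
  eqv := by
    intro p hp a
    rw [H.eqv p hp a, hL]

theorem τY_inv (a : ℝ) (h : Y) (hu : IsUnit h) :
    τY a (Ring.inverse h) = Ring.inverse (τY a h) := by
  have h1 : τY a h * τY a (Ring.inverse h) = 1 := by
    rw [← τY_mul, Ring.mul_inverse_cancel h hu, τY_one]
  have hu' : IsUnit (τY a h) := IsUnit.of_mul_eq_one _ h1
  calc τY a (Ring.inverse h) = Ring.inverse (τY a h) * (τY a h * τY a (Ring.inverse h)) := by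
        rw [← mul_assoc, Ring.inverse_mul_cancel _ hu', one_mul]
    _ = Ring.inverse (τY a h) := by rw [h1, mul_one]

theorem SE.inv {k : ℕ} {Φ : ℝ × E k → Y} (H : SE EM e₀ M k Φ)
    (hu : ∀ p ∈ domE k e₀ M, IsUnit (Φ p)) : SE EM e₀ M k (fun p => Ring.inverse (Φ p)) where
  sm := by
    intro p hp
    obtain ⟨v, hv⟩ := hu p hp
    have h1 : ContDiffAt ℝ ∞ Ring.inverse (Φ p) := hv ▸ contDiffAt_ringInverse ℝ v
    exact h1.comp_contDiffWithinAt p (H.sm p hp)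
  eqv := by
    intro p hp a
    rw [H.eqv p hp a, τY_inv a _ (hu p hp)]

theorem τY_exp (a : ℝ) (h : Y) : τY a (NormedSpace.exp h) = NormedSpace.exp (τY a h) := by
  refine evY_ext fun y t h0 h1 _ _ => ?_
  rw [evY_τY _ _ _ _ h0 h1, evY_exp, evY_exp, evY_τY _ _ _ _ h0 h1]

theorem contDiff_expY : ContDiff ℝ ∞ (fun h : Y => NormedSpace.exp h) := by
  have h := NormedSpace.exp_analytic (𝕂 := ℝ) (𝔸 := Y)
  rw [contDiff_iff_contDiffAt]
  intro x
  exact (h x).contDiffAt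

theorem SE.exp {k : ℕ} {Φ : ℝ × E k → Y} (H : SE EM e₀ M k Φ) :
    SE EM e₀ M k (fun p => NormedSpace.exp (Φ p)) where
  sm := contDiff_expY.comp_contDiffOn H.sm
  eqv := by
    intro p hp a
    rw [H.eqv p hp a, τY_exp]

theorem τY_J (O : Ops) (a : ℝ) (h : Y) : O.J (τY a h) = τY a (O.J h) := by
  refine evY_ext fun y t h0 h1 h2 h3 => ?_
  rw [evY_τY _ _ _ _ h0 h1, O.J_ev _ _ _ h2 h3, O.J_ev _ _ _ h2 h3]
  exact intervalIntegral.integral_congr fun s _ => evY_τY _ _ _ _ h0 h1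

theorem τY_K (O : Ops) (a : ℝ) (h : Y) : O.K (τY a h) = τY a (O.K h) := by
  refine evY_ext fun y t h0 h1 h2 h3 => ?_
  rw [evY_τY _ _ _ _ h0 h1, O.K_ev _ _ _ h2 h3, O.K_ev _ _ _ h2 h3]
  exact intervalIntegral.integral_congr fun s _ => evY_τY _ _ _ _ h0 h1

/-- two elements of `Y` agreeing for `0 < t` are equal -/
theorem evY_ext' {h g : Y} (H : ∀ y t : ℝ, 0 ≤ y → y ≤ 1 → 0 < t → t ≤ Real.pi / 2 →
    evY h y t = evY g y t) : h = g := by
  refine evY_ext fun y t h0 h1 h2 h3 => ?_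
  rcases h2.lt_or_eq with h | h
  · exact H y t h0 h1 h h3
  · subst h
    have c1 : Continuous (fun s : ℝ => evY h y s) :=
      (continuous_evY _).comp (by fun_prop : Continuous fun s : ℝ => (y, s))
    have c2 : Continuous (fun s : ℝ => evY g y s) :=
      (continuous_evY _).comp (by fun_prop : Continuous fun s : ℝ => (y, s))
    have l1 : Filter.Tendsto (fun s : ℝ => evY h y s) (𝓝[>] 0) (𝓝 (evY h y 0)) :=
      (c1.tendsto 0).mono_left nhdsWithin_le_nhds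
    have l2 : Filter.Tendsto (fun s : ℝ => evY g y s) (𝓝[>] 0) (𝓝 (evY g y 0)) :=
      (c2.tendsto 0).mono_left nhdsWithin_le_nhds
    refine tendsto_nhds_unique (l1.congr' ?_) l2
    filter_upwards [Ioo_mem_nhdsGT (show (0 : ℝ) < Real.pi / 2 by positivity)] with s hs
    exact H y s h0 h1 hs.1 hs.2.le

theorem τY_S3 (O : Ops) (a : ℝ) (h : Y) : O.S3 (τY a h) = τY a (O.S3 h) := by
  refine evY_ext' fun y t h0 h1 h2 h3 => ?_
  have hs : Real.sin t ^ 3 ≠ 0 :=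
    pow_ne_zero 3 (Real.sin_pos_of_pos_of_lt_pi h2 (by linarith [Real.pi_pos])).ne'
  apply mul_left_cancel₀ hs
  rw [evY_τY _ _ _ _ h0 h1, O.S3_ev _ _ _ h2.le h3, O.S3_ev _ _ _ h2.le h3]
  exact intervalIntegral.integral_congr fun s _ => by
    simp only [evY_τY _ _ _ _ h0 h1]

theorem τY_lift (O : Ops) (a : ℝ) (f : X) : O.lift (τX a f) = τY a (O.lift f) := by
  refine evY_ext fun y t h0 h1 h2 h3 => ?_
  have hd := dil_mem a y h0 h1
  have hc0 : 0 ≤ Real.cos t := Real.cos_nonneg_of_mem_Icc ⟨by linarith [Real.pi_pos], h3⟩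
  have hc1 := Real.cos_le_one t
  rw [evY_τY _ _ _ _ h0 h1, O.lift_ev _ _ _ h0 h1 h2 h3, O.lift_ev _ _ _ hd.1 hd.2 h2 h3,
    evX_τX _ _ _ (mul_nonneg h0 hc0) (by nlinarith)]
  congr 1
  ring

/-- the function `(ε, u) ↦ lift u_i` -/
theorem SE.lift (O : Ops) {k : ℕ} (i : Fin (k + 1)) :
    SE EM e₀ M k (fun p => O.lift ((p.2 : Fin (k + 1) → X) i)) where
  sm := (ContDiff.comp (g := fun u : E k => O.lift (prL k i u))
    (O.lift.comp (prL k i)).contDiff contDiff_snd).contDiffOn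
  eqv := by
    intro p hp a
    simp only
    rw [EM.τE_ev, τY_lift]

end

end Pool.Agent.W758.Uni
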