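import Pool.Agent.W668.Uni.Stmts

/-!
# UNI-KHAT, part 1: evaluation of elements of `Y`, the relation `HasV`
-/

set_option autoImplicit false

open Set MeasureTheory
open scoped ContDiff Topology

namespace Pool.Agent.W758.Uni

open Pool.Agent.W668.Uni

noncomputable section

/-! ### evaluation -/

theorem evY_add (h g : Y) (y t : ℝ) : evY (h + g) y t = evY h y t + evY g y t := rfl
theorem evY_sub (h g : Y) (y t : ℝ) : evY (h - g) y t = evY h y t - evY g y t := rfl
theorem evY_mul (h g : Y) (y t : ℝ) : evY (h * g) y t = evY h y t * evY g y t := rfl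
theorem evY_neg (h : Y) (y t : ℝ) : evY (-h) y t = -evY h y t := rfl
theorem evY_smul (r : ℝ) (h : Y) (y t : ℝ) : evY (r • h) y t = r * evY h y t := rfl
theorem evY_pow (h : Y) (n : ℕ) (y t : ℝ) : evY (h ^ n) y t = evY h y t ^ n := rfl
theorem evY_one (y t : ℝ) : evY (1 : Y) y t = 1 := rfl
theorem evY_zero (y t : ℝ) : evY (0 : Y) y t = 0 := rfl

theorem evY_ext {h g : Y} (H : ∀ y t : ℝ, 0 ≤ y → y ≤ 1 → 0 ≤ t → t ≤ Real.pi / 2 →
    evY h y t = evY g y t) : h = g := by
  ext z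
  obtain ⟨⟨y, hy⟩, ⟨t, ht⟩⟩ := z
  have := H y t hy.1 hy.2 ht.1 ht.2
  unfold evY at this
  rwa [Set.projIcc_of_mem _ hy, Set.projIcc_of_mem _ ht] at this

theorem evX_ext {h g : X} (H : ∀ y : ℝ, 0 ≤ y → y ≤ 1 → evX h y = evX g y) : h = g := by
  ext z
  obtain ⟨y, hy⟩ := z
  have := H y hy.1 hy.2
  unfold evX at this
  rwa [Set.projIcc_of_mem _ hy] at this

theorem evY_w (y t : ℝ) (h0 : 0 ≤ t) (h1 : t ≤ Real.pi / 2) : evY w y t = Real.sin t := by
  unfold evY w
  rw [Set.projIcc_of_mem _ (⟨h0, h1⟩ : t ∈ Set.Icc 0 (Real.pi / 2))]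
  rfl

theorem evY_c (y t : ℝ) (h0 : 0 ≤ t) (h1 : t ≤ Real.pi / 2) : evY c y t = Real.cos t := by
  unfold evY c
  rw [Set.projIcc_of_mem _ (⟨h0, h1⟩ : t ∈ Set.Icc 0 (Real.pi / 2))]
  rfl

theorem dil_mem (a x : ℝ) (h0 : 0 ≤ x) (h1 : x ≤ 1) : Real.exp (-|a|) * x ∈ Set.Icc (0 : ℝ) 1 :=
  ⟨mul_nonneg (Real.exp_pos _).le h0, by
    have h2 : Real.exp (-|a|) ≤ 1 := Real.exp_le_one_iff.2 (by simp)
    nlinarith [Real.exp_pos (-|a|)]⟩

theorem evX_τX (a : ℝ) (f : X) (x : ℝ) (h0 : 0 ≤ x) (h1 : x ≤ 1) :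
    evX (τX a f) x = evX f (Real.exp (-|a|) * x) := by
  unfold evX
  have e : (dil a) (Set.projIcc (0 : ℝ) 1 zero_le_one x)
      = Set.projIcc (0 : ℝ) 1 zero_le_one (Real.exp (-|a|) * x) := by
    rw [Set.projIcc_of_mem _ (⟨h0, h1⟩ : x ∈ Set.Icc (0 : ℝ) 1),
      Set.projIcc_of_mem _ (dil_mem a x h0 h1)]
    rfl
  rw [← e]
  rfl

theorem evY_τY (a : ℝ) (h : Y) (y t : ℝ) (h0 : 0 ≤ y) (h1 : y ≤ 1) :
    evY (τY a h) y t = evY h (Real.exp (-|a|) * y) t := by
  unfold evY
  have e : (dil a) (Set.projIcc (0 : ℝ) 1 zero_le_one y)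
      = Set.projIcc (0 : ℝ) 1 zero_le_one (Real.exp (-|a|) * y) := by
    rw [Set.projIcc_of_mem _ (⟨h0, h1⟩ : y ∈ Set.Icc (0 : ℝ) 1),
      Set.projIcc_of_mem _ (dil_mem a y h0 h1)]
    rfl
  rw [← e]
  rfl

theorem τY_mul (a : ℝ) (h g : Y) : τY a (h * g) = τY a h * τY a g := rfl
theorem τY_one (a : ℝ) : τY a (1 : Y) = 1 := rfl
theorem τY_pow (a : ℝ) (h : Y) (n : ℕ) : τY a (h ^ n) = τY a h ^ n := rfl

theorem τY_w (a : ℝ) : τY a w = w := rfl
theorem τY_c (a : ℝ) : τY a c = c := rfl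

theorem norm_τY_le (a : ℝ) (h : Y) : ‖τY a h‖ ≤ ‖h‖ := by
  refine (ContinuousMap.norm_le _ (norm_nonneg _)).2 fun z => ?_
  exact ContinuousMap.norm_coe_le_norm h _

theorem norm_τX_le (a : ℝ) (h : X) : ‖τX a h‖ ≤ ‖h‖ := by
  refine (ContinuousMap.norm_le _ (norm_nonneg _)).2 fun z => ?_
  exact ContinuousMap.norm_coe_le_norm h _

/-- evaluation at a point as a continuous linear functional -/
def evL (y t : ℝ) : Y →L[ℝ] ℝ :=
  LinearMap.mkContinuous
    { toFun := fun h => evY h y t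
      map_add' := fun _ _ => rfl
      map_smul' := fun _ _ => rfl } 1 (by
      intro h
      rw [one_mul]
      exact ContinuousMap.norm_coe_le_norm h _)

theorem evL_apply (y t : ℝ) (h : Y) : evL y t h = evY h y t := rfl

theorem abs_evY_le (h : Y) (y t : ℝ) : |evY h y t| ≤ ‖h‖ := ContinuousMap.norm_coe_le_norm h _

/-! ### the relation `HasV` -/

/-- `hv = V h = cos t ∂_t h` in the open rectangle -/
def HasV (h hv : Y) : Prop := ∀ y t : ℝ, 0 < y → y < 1 → 0 < t → t < Real.pi / 2 →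
  HasDerivAt (fun t' => evY h y t') (evY hv y t / Real.cos t) t

/-- `hd = D h = y ∂_y h` in the open rectangle -/
def HasD (h hd : Y) : Prop := ∀ y t : ℝ, 0 < y → y < 1 → 0 < t → t < Real.pi / 2 →
  HasDerivAt (fun y' => evY h y' t) (evY hd y t / y) y

theorem cos_pos' {t : ℝ} (h0 : 0 < t) (h1 : t < Real.pi / 2) : 0 < Real.cos t :=
  Real.cos_pos_of_mem_Ioo ⟨by linarith, h1⟩

theorem sin_pos' {t : ℝ} (h0 : 0 < t) (h1 : t < Real.pi / 2) : 0 < Real.sin t :=
  Real.sin_pos_of_pos_of_lt_pi h0 (by linarith [Real.pi_pos])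

theorem near_t {t : ℝ} (h0 : 0 < t) (h1 : t < Real.pi / 2) :
    ∀ᶠ t' in 𝓝 t, 0 < t' ∧ t' < Real.pi / 2 :=
  (isOpen_Ioo.mem_nhds (⟨h0, h1⟩ : t ∈ Ioo 0 (Real.pi / 2)))

theorem HasV.congr {h hv hv' : Y} (H : HasV h hv) (e : hv = hv') : HasV h hv' := e ▸ H

theorem HasV.add {h hv g gv : Y} (H : HasV h hv) (G : HasV g gv) : HasV (h + g) (hv + gv) := by
  intro y t a b c' d
  have := (H y t a b c' d).add (G y t a b c' d)
  rw [evY_add, add_div]
  exact this

theorem HasV.mul {h hv g gv : Y} (H : HasV h hv) (G : HasV g gv) :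
    HasV (h * g) (hv * g + h * gv) := by
  intro y t a b c' d
  have := (H y t a b c' d).mul (G y t a b c' d)
  refine this.congr_deriv ?_
  simp only [evY_add, evY_mul]
  ring

theorem HasV.smul {h hv : Y} (H : HasV h hv) (r : ℝ) : HasV (r • h) (r • hv) := by
  intro y t a b c' d
  have := (H y t a b c' d).const_mul r
  refine this.congr_deriv ?_
  simp only [evY_smul]
  ring

theorem HasV.neg {h hv : Y} (H : HasV h hv) : HasV (-h) (-hv) := by
  intro y t a b c' d
  have := (H y t a b c' d).neg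
  refine this.congr_deriv ?_
  simp only [evY_neg]
  ring

theorem hasV_one : HasV 1 0 := by
  intro y t a b c' d
  have := hasDerivAt_const t (1 : ℝ)
  refine this.congr_deriv ?_
  simp [evY_zero]

theorem hasV_w : HasV w (c ^ 2) := by
  intro y t a b c' d
  have h1 := Real.hasDerivAt_sin t
  have h2 : (fun t' => evY w y t') =ᶠ[𝓝 t] Real.sin := by
    filter_upwards [near_t c' d] with t' ht'
    exact evY_w y t' ht'.1.le ht'.2.le
  refine (h1.congr_of_eventuallyEq h2).congr_deriv ?_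
  rw [evY_pow, evY_c y t c'.le d.le]
  field_simp [(cos_pos' c' d).ne']

theorem hasV_c : HasV c (-(w * c)) := by
  intro y t a b c' d
  have h1 := Real.hasDerivAt_cos t
  have h2 : (fun t' => evY c y t') =ᶠ[𝓝 t] Real.cos := by
    filter_upwards [near_t c' d] with t' ht'
    exact evY_c y t' ht'.1.le ht'.2.le
  refine (h1.congr_of_eventuallyEq h2).congr_deriv ?_
  rw [evY_neg, evY_mul, evY_c y t c'.le d.le, evY_w y t c'.le d.le]
  field_simp [(cos_pos' c' d).ne']

theorem hasV_J (O : Ops) (h : Y) : HasV (O.J h) (c * h) := by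
  intro y t a b c' d
  have hc : Continuous (fun s => evY h y s) :=
    (continuous_evY h).comp (by fun_prop : Continuous fun s : ℝ => (y, s))
  have h1 : HasDerivAt (fun t' => ∫ s in (0 : ℝ)..t', evY h y s) (evY h y t) t :=
    intervalIntegral.integral_hasDerivAt_right (hc.intervalIntegrable _ _)
      (hc.stronglyMeasurableAtFilter _ _) hc.continuousAt
  have h2 : (fun t' => evY (O.J h) y t') =ᶠ[𝓝 t] fun t' => ∫ s in (0 : ℝ)..t', evY h y s := by
    filter_upwards [near_t c' d] with t' ht'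
    exact O.J_ev h y t' ht'.1.le ht'.2.le
  refine (h1.congr_of_eventuallyEq h2).congr_deriv ?_
  rw [evY_mul, evY_c y t c'.le d.le]
  field_simp [(cos_pos' c' d).ne']

theorem hasV_K (O : Ops) (h : Y) : HasV (O.K h) (-(c * h)) := by
  intro y t a b c' d
  have hc : Continuous (fun s => evY h y s) :=
    (continuous_evY h).comp (by fun_prop : Continuous fun s : ℝ => (y, s))
  have h1 : HasDerivAt (fun t' => ∫ s in t'..(Real.pi / 2), evY h y s) (-evY h y t) t :=
    intervalIntegral.integral_hasDerivAt_left (hc.intervalIntegrable _ _)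
      (hc.stronglyMeasurableAtFilter _ _) hc.continuousAt
  have h2 : (fun t' => evY (O.K h) y t') =ᶠ[𝓝 t]
      fun t' => ∫ s in t'..(Real.pi / 2), evY h y s := by
    filter_upwards [near_t c' d] with t' ht'
    exact O.K_ev h y t' ht'.1.le ht'.2.le
  refine (h1.congr_of_eventuallyEq h2).congr_deriv ?_
  rw [evY_neg, evY_mul, evY_c y t c'.le d.le]
  field_simp [(cos_pos' c' d).ne']

/-- `V (w S3 h) = c h - 2 c² S3 h` -/
theorem hasV_wS3 (O : Ops) (h : Y) :
    HasV (w * O.S3 h) (c * h + (-2 : ℝ) • (c ^ 2 * O.S3 h)) := by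
  intro y t a b c' d
  have hc : Continuous (fun s => Real.sin s ^ 2 * evY h y s) :=
    (by fun_prop : Continuous fun s : ℝ => Real.sin s ^ 2).mul
      ((continuous_evY h).comp (by fun_prop : Continuous fun s : ℝ => (y, s)))
  have hs := (sin_pos' c' d).ne'
  have hco := (cos_pos' c' d).ne'
  have h1 : HasDerivAt (fun t' => ∫ s in (0 : ℝ)..t', Real.sin s ^ 2 * evY h y s)
      (Real.sin t ^ 2 * evY h y t) t :=
    intervalIntegral.integral_hasDerivAt_right (hc.intervalIntegrable _ _)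
      (hc.stronglyMeasurableAtFilter _ _) hc.continuousAt
  have h3 : HasDerivAt (fun t' => (∫ s in (0 : ℝ)..t', Real.sin s ^ 2 * evY h y s)
      / Real.sin t' ^ 2) _ t := h1.div ((Real.hasDerivAt_sin t).pow 2) (pow_ne_zero 2 hs)
  have h2 : (fun t' => evY (w * O.S3 h) y t') =ᶠ[𝓝 t]
      fun t' => (∫ s in (0 : ℝ)..t', Real.sin s ^ 2 * evY h y s) / Real.sin t' ^ 2 := by
    filter_upwards [near_t c' d] with t' ht'
    have hs' := (sin_pos' ht'.1 ht'.2).ne'
    rw [evY_mul, evY_w y t' ht'.1.le ht'.2.le, ← O.S3_ev h y t' ht'.1.le ht'.2.le]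
    field_simp
  refine (h3.congr_of_eventuallyEq h2).congr_deriv ?_
  rw [← O.S3_ev h y t c'.le d.le]
  simp only [evY_add, evY_mul, evY_smul, evY_pow, evY_c y t c'.le d.le]
  field_simp
  ring

theorem HasV.inv {h hv : Y} (H : HasV h hv) (hu : IsUnit h) :
    HasV (Ring.inverse h) (-(hv * Ring.inverse h ^ 2)) := by
  intro y t a b c' d
  have key : ∀ y' t' : ℝ, evY h y' t' * evY (Ring.inverse h) y' t' = 1 := by
    intro y' t'
    rw [← evY_mul, Ring.mul_inverse_cancel h hu, evY_one]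
  have hne : ∀ y' t' : ℝ, evY h y' t' ≠ 0 := by
    intro y' t' h0
    have := key y' t'
    rw [h0, zero_mul] at this
    exact zero_ne_one this
  have e : ∀ y' t' : ℝ, evY (Ring.inverse h) y' t' = (evY h y' t')⁻¹ := by
    intro y' t'
    exact eq_inv_of_mul_eq_one_right (key y' t')
  have h1 := (H y t a b c' d).inv (hne y t)
  have h2 : (fun t' => evY (Ring.inverse h) y t') = fun t' => (evY h y t')⁻¹ := by
    funext t'; exact e y t'
  rw [h2]
  refine h1.congr_deriv ?_
  rw [evY_neg, evY_mul, evY_pow, e]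
  have := hne y t
  field_simp

theorem continuous_expY : Continuous (fun h : Y => NormedSpace.exp h) :=
  NormedSpace.exp_continuous

theorem evY_exp (h : Y) (y t : ℝ) : evY (NormedSpace.exp h) y t = Real.exp (evY h y t) := by
  let ev : Y →+* ℝ :=
    { toFun := fun h => evY h y t
      map_one' := rfl
      map_mul' := fun _ _ => rfl
      map_zero' := rfl
      map_add' := fun _ _ => rfl }
  have hc : Continuous ev := (evL y t).continuous
  have := NormedSpace.map_exp ev hc h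
  rw [Real.exp_eq_exp_ℝ]
  exact this

theorem HasV.exp {h hv : Y} (H : HasV h hv) :
    HasV (NormedSpace.exp h) (hv * NormedSpace.exp h) := by
  intro y t a b c' d
  have h2 : (fun t' => evY (NormedSpace.exp h) y t') = fun t' => Real.exp (evY h y t') := by
    funext t'; exact evY_exp h y t'
  rw [h2]
  refine (H y t a b c' d).exp.congr_deriv ?_
  rw [evY_mul, evY_exp]
  ring

/-- derivative of a positive square root -/
theorem HasV.root {h g gv : Y} (e : h ^ 2 = g) (hpos : ∀ y t : ℝ, 0 < evY h y t)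
    (G : HasV g gv) : HasV h ((1 / 2 : ℝ) • (gv * Ring.inverse h)) := by
  intro y t a b c' d
  have hu : IsUnit h := by
    rw [ContinuousMap.isUnit_iff_forall_ne_zero]
    rintro ⟨⟨y', hy'⟩, ⟨t', ht'⟩⟩
    have := hpos y' t'
    unfold evY at this
    rw [Set.projIcc_of_mem _ hy', Set.projIcc_of_mem _ ht'] at this
    exact this.ne'
  have hi : evY (Ring.inverse h) y t = (evY h y t)⁻¹ := by
    refine eq_inv_of_mul_eq_one_right ?_
    rw [← evY_mul, Ring.mul_inverse_cancel h hu, evY_one]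
  have e1 : ∀ y' t' : ℝ, evY g y' t' = evY h y' t' ^ 2 := by
    intro y' t'; rw [← e, evY_pow]
  have e2 : (fun t' => evY h y t') = fun t' => Real.sqrt (evY g y t') := by
    funext t'
    rw [e1, Real.sqrt_sq (hpos y t').le]
  rw [e2]
  have hg : evY g y t ≠ 0 := by rw [e1]; exact pow_ne_zero 2 (hpos y t).ne'
  refine ((G y t a b c' d).sqrt hg).congr_deriv ?_
  rw [evY_smul, evY_mul, hi, e1, Real.sqrt_sq (hpos y t).le]
  field_simp [(hpos y t).ne']

end

end Pool.Agent.W758.Uni
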