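import Pool.Agent.W758.Uni.VCalc

/-!
# UNI-KHAT, part 4: mixed derivatives, jets of `Good` functions, and the two kernels
-/

set_option autoImplicit false

open Set MeasureTheory
open scoped ContDiff Topology

namespace Pool.Agent.W758.Uni

open Pool.Agent.W668.Uni

noncomputable section

variable {EM : EMaps} {e₀ M : ℝ}

/-! ### mixed derivatives -/

theorem cos_lower {t₀ t₁ r : ℝ} (h0 : 0 < t₀) (h2 : t₁ < Real.pi / 2)
    (hr : r ∈ Icc t₀ t₁) : Real.cos t₁ ≤ Real.cos r :=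
  Real.cos_le_cos_of_nonneg_of_le_pi (by linarith [hr.1]) (by linarith [Real.pi_pos]) hr.2

theorem ii_cos (h : Y) (y : ℝ) {t₀ t₁ : ℝ} (h0 : 0 < t₀) (h1 : t₀ ≤ t₁)
    (h2 : t₁ < Real.pi / 2) :
    IntervalIntegrable (fun r => evY h y r / Real.cos r) volume t₀ t₁ := by
  refine ContinuousOn.intervalIntegrable ?_
  rw [uIcc_of_le h1]
  refine ContinuousOn.div ?_ Real.continuous_cos.continuousOn ?_
  · exact ((continuous_evY h).comp (by fun_prop : Continuous fun s : ℝ => (y, s))).continuousOn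
  · intro r hr
    exact (cos_pos' (by linarith [hr.1]) (by linarith [hr.2])).ne'

/-- `h ↦ ∫_{t₀}^{t₁} h(y,r)/cos r dr` -/
def intL (y t₀ t₁ : ℝ) (h0 : 0 < t₀) (h1 : t₀ ≤ t₁) (h2 : t₁ < Real.pi / 2) : Y →L[ℝ] ℝ :=
  LinearMap.mkContinuous
    { toFun := fun h => ∫ r in t₀..t₁, evY h y r / Real.cos r
      map_add' := fun h g => by
        rw [← intervalIntegral.integral_add (ii_cos h y h0 h1 h2) (ii_cos g y h0 h1 h2)]
        refine intervalIntegral.integral_congr fun r _ => ?_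
        simp only [evY_add, add_div]
      map_smul' := fun a h => by
        simp only [RingHom.id_apply, smul_eq_mul]
        rw [← intervalIntegral.integral_const_mul]
        refine intervalIntegral.integral_congr fun r _ => ?_
        simp only [evY_smul, mul_div_assoc] } (|t₁ - t₀| / Real.cos t₁) (by
      intro h
      have hc := cos_pos' (lt_of_lt_of_le h0 h1) h2
      have := intervalIntegral.norm_integral_le_of_norm_le_const (a := t₀) (b := t₁)
        (f := fun r => evY h y r / Real.cos r) (C := ‖h‖ / Real.cos t₁) (by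
          intro r hr
          rw [uIoc_of_le h1] at hr
          have h3 := cos_lower h0 h2 ⟨hr.1.le, hr.2⟩
          rw [Real.norm_eq_abs, abs_div, abs_of_pos (lt_of_lt_of_le hc h3)]
          exact div_le_div₀ (norm_nonneg _) (abs_evY_le h y r) hc h3)
      refine this.trans (le_of_eq ?_)
      ring)

theorem intL_apply (y t₀ t₁ : ℝ) (h0 : 0 < t₀) (h1 : t₀ ≤ t₁) (h2 : t₁ < Real.pi / 2) (h : Y) :
    intL y t₀ t₁ h0 h1 h2 h = ∫ r in t₀..t₁, evY h y r / Real.cos r := rfl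

theorem HasV.ftc {h hv : Y} (H : HasV h hv) (y t₀ t₁ : ℝ) (a : 0 < y) (b : y < 1)
    (h0 : 0 < t₀) (h1 : t₀ ≤ t₁) (h2 : t₁ < Real.pi / 2) :
    evY h y t₁ - evY h y t₀ = ∫ r in t₀..t₁, evY hv y r / Real.cos r := by
  refine (intervalIntegral.integral_eq_sub_of_hasDerivAt ?_ (ii_cos hv y h0 h1 h2)).symm
  intro r hr
  rw [uIcc_of_le h1] at hr
  exact H y r a b (by linarith [hr.1]) (by linarith [hr.2])

theorem hasV_deriv (Φs Ψs : ℝ → Y) (φ ψ : Y) (h1 : HasDerivAt Φs φ 0)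
    (h2 : HasDerivAt Ψs ψ 0) (hV : ∀ᶠ s in 𝓝 (0 : ℝ), HasV (Φs s) (Ψs s)) : HasV φ ψ := by
  have key : ∀ y t₀ t₁ : ℝ, 0 < y → y < 1 → 0 < t₀ → t₀ ≤ t₁ → t₁ < Real.pi / 2 →
      evY φ y t₁ - evY φ y t₀ = ∫ r in t₀..t₁, evY ψ y r / Real.cos r := by
    intro y t₀ t₁ a b c0 c1 c2
    have d1 := ((evL y t₁).hasFDerivAt.comp_hasDerivAt 0 h1).sub
      ((evL y t₀).hasFDerivAt.comp_hasDerivAt 0 h1)
    have d2 := (intL y t₀ t₁ c0 c1 c2).hasFDerivAt.comp_hasDerivAt 0 h2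
    have := d1.unique (d2.congr_of_eventuallyEq (by
      filter_upwards [hV] with s hs
      exact hs.ftc y t₀ t₁ a b c0 c1 c2))
    exact this
  intro y t a b c0 c1
  have hc := (cos_pos' c0 c1).ne'
  have d1 : HasDerivAt (fun t' => ∫ r in (t / 2)..t', evY ψ y r / Real.cos r)
      (evY ψ y t / Real.cos t) t := by
    refine intervalIntegral.integral_hasDerivAt_right
      (ii_cos ψ y (by linarith) (by linarith) c1) ?_ ?_
    · refine ContinuousOn.stronglyMeasurableAtFilter_nhdsWithin (s := Ioo 0 (Real.pi / 2))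
        (μ := volume) ?_ measurableSet_Ioo t |>.filter_mono ?_
      · refine ContinuousOn.div ?_ Real.continuous_cos.continuousOn ?_
        · exact ((continuous_evY ψ).comp
            (by fun_prop : Continuous fun s : ℝ => (y, s))).continuousOn
        · intro r hr
          exact (cos_pos' hr.1 hr.2).ne'
      · rw [(isOpen_Ioo.nhdsWithin_eq (show t ∈ Ioo 0 (Real.pi / 2) from ⟨c0, c1⟩))]
    · refine ContinuousAt.div ?_ Real.continuous_cos.continuousAt hc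
      exact ((continuous_evY ψ).comp (by fun_prop : Continuous fun s : ℝ => (y, s))).continuousAt
  have d2 := d1.const_add (evY φ y (t / 2))
  refine d2.congr_of_eventuallyEq ?_
  filter_upwards [isOpen_Ioo.mem_nhds (show t ∈ Ioo (t / 2) (Real.pi / 2) from
    ⟨by linarith, c1⟩)] with t' ht'
  rw [← key y (t / 2) t' a b (by linarith) ht'.1.le ht'.2]
  ring

theorem SV.DD {Φ : ℝ × E 0 → Y} {Ψ : ℝ × E 1 → Y} (H : SV EM e₀ M 0 Φ Ψ) :
    SV EM e₀ M 1 (DD EM 0 Φ) (DD EM 1 Ψ) where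
  s1 := H.s1.DD
  s2 := H.s2.DD
  v := by
    intro p hp
    have hp1 := drop_dom EM hp
    have hp0 := drop_dom EM hp1
    have h2 := hasDerivAt_line (H.s2.diffAt hp1) (EM.sh 1 p.2)
    have h1 := hasDerivAt_line (H.s1.diffAt hp0) (EM.sh 0 (EM.drop 1 p.2))
    refine hasV_deriv _ _ _ _ h1 h2 ?_
    have hcont : ContinuousAt (fun s : ℝ =>
        ((p.1, EM.drop 1 p.2 + s • EM.sh 1 p.2) : ℝ × E 1)) 0 := by fun_prop
    have hmem : ∀ᶠ s : ℝ in 𝓝 0,
        ((p.1, EM.drop 1 p.2 + s • EM.sh 1 p.2) : ℝ × E 1) ∈ domE 1 e₀ M := by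
      refine hcont.eventually_mem ?_
      refine (isOpen_domE 1 e₀ M).mem_nhds ?_
      simpa using hp1
    have e : EM.drop 0 (EM.sh 1 p.2) = EM.sh 0 (EM.drop 1 p.2) := by
      apply Subtype.ext
      funext i
      rw [EM.drop_ev, EM.sh_ev, EM.sh_ev, EM.drop_ev]
      rfl
    filter_upwards [hmem] with s hs
    have := H.v _ hs
    simp only [map_add, map_smul, e] at this
    exact this

/-- jets of `Good` functions -/
theorem Good.jet {Φ : ℝ × E 0 → Y} (H : Good EM e₀ M Φ) :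
    ∃ j : ℝ × E 2 → (Fin 4 → Y), ContDiffOn ℝ ∞ j (domE 2 e₀ M) ∧
      ∀ p ∈ domE 2 e₀ M, JetOK (j p) ∧ j p 0 = Φ (p.1, EM.drop 0 (EM.drop 1 p.2)) := by
  obtain ⟨Ψ, h, h'⟩ := H
  have hD := h.DD
  have hw2 : VD EM e₀ M 1 (fun _ => w * w) := (SV.gw.mul SV.gw).vd
  have hK : VD EM e₀ M 1 (fun p => ((2 : ℝ) • lo EM 0 Φ p + (w * w) * DD EM 0 Φ p) + w * Ψ p) :=
    ((h.lo.vd.smul (r := fun _ => 2) contDiff_const).add (hw2.mul hD.vd)).add h'
  obtain ⟨K3, hK3⟩ := hK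
  refine ⟨fun p => ![lo EM 1 (lo EM 0 Φ) p,
    lo EM 1 (fun p => ((2 : ℝ) • lo EM 0 Φ p + (w * w) * DD EM 0 Φ p) + w * Ψ p) p,
    DD EM 1 (fun p => ((2 : ℝ) • lo EM 0 Φ p + (w * w) * DD EM 0 Φ p) + w * Ψ p) p,
    K3 p], ?_, ?_⟩
  · rw [contDiffOn_pi]
    intro i
    fin_cases i
    · exact h.s1.lo.lo.sm
    · exact hK3.s1.lo.sm
    · exact hK3.s1.DD.sm
    · exact hK3.s2.sm
  · intro p hp
    refine ⟨⟨lo EM 1 (DD EM 0 Φ) p, lo EM 1 Ψ p, ?_, ?_⟩, rfl⟩
    · intro y t a b c0 c1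
      refine ⟨?_, ?_, ?_, ?_⟩
      · exact h.s1.hasD (drop_dom EM hp) y t a b c0 c1
      · exact h.v _ (drop_dom EM hp) y t a b c0 c1
      · exact hK3.s1.hasD hp y t a b c0 c1
      · exact hK3.v _ hp y t a b c0 c1
    · show lo EM 1 (fun p => ((2 : ℝ) • lo EM 0 Φ p + (w * w) * DD EM 0 Φ p) + w * Ψ p) p = _
      rw [pow_two]
      rfl

end

end Pool.Agent.W758.Uni
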