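import Pool.Agent.W758.Uni.DCalc

/-!
# UNI-KHAT, part 3: the classes `SV` and `Good`
-/

set_option autoImplicit false

open Set MeasureTheory
open scoped ContDiff Topology

namespace Pool.Agent.W758.Uni

open Pool.Agent.W668.Uni

noncomputable section

variable {EM : EMaps} {e₀ M : ℝ}

/-- `Φ` is a smooth equivariant function on `ℝ × E k` with a smooth equivariant
`V`-derivative `Ψ` on `ℝ × E (k+1)`. -/
structure SV (EM : EMaps) (e₀ M : ℝ) (k : ℕ) (Φ : ℝ × E k → Y) (Ψ : ℝ × E (k + 1) → Y) :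
    Prop where
  s1 : SE EM e₀ M k Φ
  s2 : SE EM e₀ M (k + 1) Ψ
  v : ∀ p ∈ domE (k + 1) e₀ M, HasV (Φ (p.1, EM.drop k p.2)) (Ψ p)

theorem SE.congr {k : ℕ} {Φ Ψ : ℝ × E k → Y} (H : SE EM e₀ M k Φ)
    (e : ∀ p ∈ domE k e₀ M, Ψ p = Φ p) : SE EM e₀ M k Ψ where
  sm := H.sm.congr e
  eqv := by
    intro p hp a
    rw [e p hp, e _ (τ_dom EM hp a), H.eqv p hp a]

theorem SV.congr {k : ℕ} {Φ Φ' : ℝ × E k → Y} {Ψ : ℝ × E (k + 1) → Y}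
    (H : SV EM e₀ M k Φ Ψ) (e : ∀ p ∈ domE k e₀ M, Φ' p = Φ p) : SV EM e₀ M k Φ' Ψ where
  s1 := H.s1.congr e
  s2 := H.s2
  v := by
    intro p hp
    rw [e _ (drop_dom EM hp)]
    exact H.v p hp

theorem SV.congr' {k : ℕ} {Φ : ℝ × E k → Y} {Ψ Ψ' : ℝ × E (k + 1) → Y}
    (H : SV EM e₀ M k Φ Ψ) (e : ∀ p ∈ domE (k + 1) e₀ M, Ψ' p = Ψ p) : SV EM e₀ M k Φ Ψ' where
  s1 := H.s1
  s2 := H.s2.congr e
  v := by
    intro p hp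
    rw [e _ hp]
    exact H.v p hp

theorem SV.add {k : ℕ} {Φ Φ' : ℝ × E k → Y} {Ψ Ψ' : ℝ × E (k + 1) → Y}
    (H : SV EM e₀ M k Φ Ψ) (G : SV EM e₀ M k Φ' Ψ') :
    SV EM e₀ M k (fun p => Φ p + Φ' p) (fun p => Ψ p + Ψ' p) where
  s1 := H.s1.add G.s1
  s2 := H.s2.add G.s2
  v := fun p hp => (H.v p hp).add (G.v p hp)

theorem SV.neg {k : ℕ} {Φ : ℝ × E k → Y} {Ψ : ℝ × E (k + 1) → Y}
    (H : SV EM e₀ M k Φ Ψ) : SV EM e₀ M k (fun p => -Φ p) (fun p => -Ψ p) where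
  s1 := H.s1.neg
  s2 := H.s2.neg
  v := fun p hp => (H.v p hp).neg

theorem SV.smul {k : ℕ} {Φ : ℝ × E k → Y} {Ψ : ℝ × E (k + 1) → Y}
    (H : SV EM e₀ M k Φ Ψ) {r : ℝ → ℝ} (hr : ContDiff ℝ ∞ r) :
    SV EM e₀ M k (fun p => r p.1 • Φ p) (fun p => r p.1 • Ψ p) where
  s1 := H.s1.smul hr
  s2 := H.s2.smul hr
  v := fun p hp => (H.v p hp).smul (r p.1)

theorem SV.mul {k : ℕ} {Φ Φ' : ℝ × E k → Y} {Ψ Ψ' : ℝ × E (k + 1) → Y}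
    (H : SV EM e₀ M k Φ Ψ) (G : SV EM e₀ M k Φ' Ψ') :
    SV EM e₀ M k (fun p => Φ p * Φ' p) (fun p => Ψ p * lo EM k Φ' p + lo EM k Φ p * Ψ' p) where
  s1 := H.s1.mul G.s1
  s2 := (H.s2.mul G.s1.lo).add (H.s1.lo.mul G.s2)
  v := fun p hp => (H.v p hp).mul (G.v p hp)

theorem SV.inv {k : ℕ} {Φ : ℝ × E k → Y} {Ψ : ℝ × E (k + 1) → Y}
    (H : SV EM e₀ M k Φ Ψ) (hu : ∀ p ∈ domE k e₀ M, IsUnit (Φ p)) :
    SV EM e₀ M k (fun p => Ring.inverse (Φ p))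
      (fun p => -(Ψ p * (Ring.inverse (lo EM k Φ p) * Ring.inverse (lo EM k Φ p)))) where
  s1 := H.s1.inv hu
  s2 := (H.s2.mul (((H.s1.lo).inv (fun p hp => hu _ (drop_dom EM hp))).mul
    ((H.s1.lo).inv (fun p hp => hu _ (drop_dom EM hp))))).neg
  v := by
    intro p hp
    have := (H.v p hp).inv (hu _ (drop_dom EM hp))
    rw [pow_two] at this
    exact this

theorem SV.exp {k : ℕ} {Φ : ℝ × E k → Y} {Ψ : ℝ × E (k + 1) → Y}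
    (H : SV EM e₀ M k Φ Ψ) :
    SV EM e₀ M k (fun p => NormedSpace.exp (Φ p))
      (fun p => Ψ p * NormedSpace.exp (lo EM k Φ p)) where
  s1 := H.s1.exp
  s2 := H.s2.mul H.s1.lo.exp
  v := fun p hp => (H.v p hp).exp

theorem SV.lo {k : ℕ} {Φ : ℝ × E k → Y} {Ψ : ℝ × E (k + 1) → Y}
    (H : SV EM e₀ M k Φ Ψ) : SV EM e₀ M (k + 1) (lo EM k Φ) (lo EM (k + 1) Ψ) where
  s1 := H.s1.lo
  s2 := H.s2.lo
  v := fun _ hp => H.v _ (drop_dom EM hp)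

/-- existence of a `V`-derivative -/
def VD (EM : EMaps) (e₀ M : ℝ) (k : ℕ) (Φ : ℝ × E k → Y) : Prop :=
  ∃ Ψ : ℝ × E (k + 1) → Y, SV EM e₀ M k Φ Ψ

theorem SV.vd {k : ℕ} {Φ : ℝ × E k → Y} {Ψ : ℝ × E (k + 1) → Y} (H : SV EM e₀ M k Φ Ψ) :
    VD EM e₀ M k Φ := ⟨Ψ, H⟩

theorem VD.congr {k : ℕ} {Φ Φ' : ℝ × E k → Y} (H : VD EM e₀ M k Φ)
    (e : ∀ p ∈ domE k e₀ M, Φ' p = Φ p) : VD EM e₀ M k Φ' := by
  obtain ⟨Ψ, h⟩ := H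
  exact ⟨Ψ, h.congr e⟩

theorem VD.add {k : ℕ} {Φ Φ' : ℝ × E k → Y} (H : VD EM e₀ M k Φ) (G : VD EM e₀ M k Φ') :
    VD EM e₀ M k (fun p => Φ p + Φ' p) := by
  obtain ⟨Ψ, h⟩ := H
  obtain ⟨Ψ', g⟩ := G
  exact (h.add g).vd

theorem VD.neg {k : ℕ} {Φ : ℝ × E k → Y} (H : VD EM e₀ M k Φ) :
    VD EM e₀ M k (fun p => -Φ p) := by
  obtain ⟨Ψ, h⟩ := H
  exact h.neg.vd

theorem VD.smul {k : ℕ} {Φ : ℝ × E k → Y} (H : VD EM e₀ M k Φ) {r : ℝ → ℝ}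
    (hr : ContDiff ℝ ∞ r) : VD EM e₀ M k (fun p => r p.1 • Φ p) := by
  obtain ⟨Ψ, h⟩ := H
  exact (h.smul hr).vd

theorem VD.mul {k : ℕ} {Φ Φ' : ℝ × E k → Y} (H : VD EM e₀ M k Φ) (G : VD EM e₀ M k Φ') :
    VD EM e₀ M k (fun p => Φ p * Φ' p) := by
  obtain ⟨Ψ, h⟩ := H
  obtain ⟨Ψ', g⟩ := G
  exact (h.mul g).vd

theorem VD.inv {k : ℕ} {Φ : ℝ × E k → Y} (H : VD EM e₀ M k Φ)
    (hu : ∀ p ∈ domE k e₀ M, IsUnit (Φ p)) : VD EM e₀ M k (fun p => Ring.inverse (Φ p)) := by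
  obtain ⟨Ψ, h⟩ := H
  exact (h.inv hu).vd

theorem VD.exp {k : ℕ} {Φ : ℝ × E k → Y} (H : VD EM e₀ M k Φ) :
    VD EM e₀ M k (fun p => NormedSpace.exp (Φ p)) := by
  obtain ⟨Ψ, h⟩ := H
  exact h.exp.vd

theorem VD.lo {k : ℕ} {Φ : ℝ × E k → Y} (H : VD EM e₀ M k Φ) :
    VD EM e₀ M (k + 1) (lo EM k Φ) := by
  obtain ⟨Ψ, h⟩ := H
  exact h.lo.vd

/-! ### generators -/

theorem SE.gw {k : ℕ} : SE EM e₀ M k (fun _ => w) := SE.const w τY_w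
theorem SE.gc {k : ℕ} : SE EM e₀ M k (fun _ => c) := SE.const c τY_c
theorem SE.gone {k : ℕ} : SE EM e₀ M k (fun _ => (1 : Y)) := SE.const 1 τY_one
theorem SE.gzero {k : ℕ} : SE EM e₀ M k (fun _ => (0 : Y)) := SE.const 0 (fun _ => map_zero _)

theorem SV.gw {k : ℕ} : SV EM e₀ M k (fun _ => w) (fun _ => c * c) where
  s1 := SE.gw
  s2 := SE.gc.mul SE.gc
  v := fun _ _ => by rw [← pow_two]; exact hasV_w

theorem SV.gc {k : ℕ} : SV EM e₀ M k (fun _ => c) (fun _ => -(w * c)) where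
  s1 := SE.gc
  s2 := (SE.gw.mul SE.gc).neg
  v := fun _ _ => hasV_c

theorem SV.gone {k : ℕ} : SV EM e₀ M k (fun _ => (1 : Y)) (fun _ => (0 : Y)) where
  s1 := SE.gone
  s2 := SE.gzero
  v := fun _ _ => hasV_one

/-- `V (lift f) = - w lift (D f)` -/
theorem hasV_lift (O : Ops) {f f₁ : X} (H : Rel f f₁) : HasV (O.lift f) (-(w * O.lift f₁)) := by
  intro y t h0 h1 h2 h3
  have hcp := cos_pos' h2 h3
  have hc1 := Real.cos_le_one t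
  have hx0 : 0 < y * Real.cos t := mul_pos h0 hcp
  have hx1 : y * Real.cos t < 1 := by nlinarith
  have d1 := H.hasDerivAt (y * Real.cos t) hx0 hx1
  have d2 : HasDerivAt (fun t' => y * Real.cos t') (y * -Real.sin t) t :=
    (Real.hasDerivAt_cos t).const_mul y
  have d3 := d1.comp t d2
  have e : (fun t' => evY (O.lift f) y t') =ᶠ[𝓝 t] (evX f ∘ fun t' => y * Real.cos t') := by
    filter_upwards [near_t h2 h3] with t' ht'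
    exact O.lift_ev f y t' h0.le h1.le ht'.1.le ht'.2.le
  refine (d3.congr_of_eventuallyEq e).congr_deriv ?_
  rw [evY_neg, evY_mul, evY_w y t h2.le h3.le, O.lift_ev f₁ y t h0.le h1.le h2.le h3.le]
  field_simp

theorem SV.lift (O : Ops) {k : ℕ} (i : Fin (k + 1)) :
    SV EM e₀ M k (fun p => O.lift ((p.2 : Fin (k + 1) → X) i))
      (fun p => -(w * O.lift ((p.2 : Fin (k + 2) → X) i.succ))) where
  s1 := SE.lift O i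
  s2 := (SE.gw.mul (SE.lift O i.succ)).neg
  v := by
    intro p _
    have := hasV_lift O (E_rel' EM p.2 i)
    rw [EM.sh_ev] at this
    exact this

/-! ### the class `Good` -/

/-- `Φ` has a `V`-derivative `Ψ` such that `w Ψ` has a `V`-derivative -/
def Good (EM : EMaps) (e₀ M : ℝ) (Φ : ℝ × E 0 → Y) : Prop :=
  ∃ Ψ : ℝ × E 1 → Y, SV EM e₀ M 0 Φ Ψ ∧ VD EM e₀ M 1 (fun p => w * Ψ p)

theorem Good.vd {Φ : ℝ × E 0 → Y} (H : Good EM e₀ M Φ) : VD EM e₀ M 0 Φ := by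
  obtain ⟨Ψ, h, _⟩ := H
  exact h.vd

theorem Good.vd1 {Φ : ℝ × E 0 → Y} (H : Good EM e₀ M Φ) : VD EM e₀ M 1 (lo EM 0 Φ) := H.vd.lo

theorem Good.congr {Φ Φ' : ℝ × E 0 → Y} (H : Good EM e₀ M Φ)
    (e : ∀ p ∈ domE 0 e₀ M, Φ' p = Φ p) : Good EM e₀ M Φ' := by
  obtain ⟨Ψ, h, g⟩ := H
  exact ⟨Ψ, h.congr e, g⟩

theorem Good.add {Φ Φ' : ℝ × E 0 → Y} (H : Good EM e₀ M Φ) (G : Good EM e₀ M Φ') :
    Good EM e₀ M (fun p => Φ p + Φ' p) := by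
  obtain ⟨Ψ, h, h'⟩ := H
  obtain ⟨Ψ', g, g'⟩ := G
  refine ⟨_, h.add g, (h'.add g').congr fun p _ => ?_⟩
  ring

theorem Good.neg {Φ : ℝ × E 0 → Y} (H : Good EM e₀ M Φ) : Good EM e₀ M (fun p => -Φ p) := by
  obtain ⟨Ψ, h, h'⟩ := H
  refine ⟨_, h.neg, h'.neg.congr fun p _ => ?_⟩
  ring

theorem Good.smul {Φ : ℝ × E 0 → Y} (H : Good EM e₀ M Φ) {r : ℝ → ℝ}
    (hr : ContDiff ℝ ∞ r) : Good EM e₀ M (fun p => r p.1 • Φ p) := by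
  obtain ⟨Ψ, h, h'⟩ := H
  refine ⟨_, h.smul hr, (h'.smul hr).congr fun p _ => ?_⟩
  rw [mul_smul_comm]

theorem Good.mul {Φ Φ' : ℝ × E 0 → Y} (H : Good EM e₀ M Φ) (G : Good EM e₀ M Φ') :
    Good EM e₀ M (fun p => Φ p * Φ' p) := by
  have hv := H.vd1
  have gv := G.vd1
  obtain ⟨Ψ, h, h'⟩ := H
  obtain ⟨Ψ', g, g'⟩ := G
  refine ⟨_, h.mul g, ((h'.mul gv).add (hv.mul g')).congr fun p _ => ?_⟩
  ring

theorem Good.inv {Φ : ℝ × E 0 → Y} (H : Good EM e₀ M Φ)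
    (hu : ∀ p ∈ domE 0 e₀ M, IsUnit (Φ p)) : Good EM e₀ M (fun p => Ring.inverse (Φ p)) := by
  have hv := H.vd1
  have hi := hv.inv (fun p hp => hu _ (drop_dom EM hp))
  obtain ⟨Ψ, h, h'⟩ := H
  refine ⟨_, h.inv hu, ((h'.mul (hi.mul hi)).neg).congr fun p _ => ?_⟩
  ring

theorem Good.exp {Φ : ℝ × E 0 → Y} (H : Good EM e₀ M Φ) :
    Good EM e₀ M (fun p => NormedSpace.exp (Φ p)) := by
  have hv := H.vd1
  obtain ⟨Ψ, h, h'⟩ := H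
  refine ⟨_, h.exp, (h'.mul hv.exp).congr fun p _ => ?_⟩
  ring

/-- to prove `Good`: a `V`-derivative given as `lo` of something in `VD 0` -/
theorem SV.good {Φ : ℝ × E 0 → Y} {Ψ : ℝ × E 1 → Y} (H : SV EM e₀ M 0 Φ Ψ)
    (G : VD EM e₀ M 1 (fun p => w * Ψ p)) : Good EM e₀ M Φ := ⟨Ψ, H, G⟩

theorem Good.gw : Good EM e₀ M (fun _ => w) := by
  refine ⟨_, SV.gw, ?_⟩
  exact (SV.gw.mul (SV.gc.mul SV.gc)).vd

theorem Good.gc : Good EM e₀ M (fun _ => c) := by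
  refine ⟨_, SV.gc, ?_⟩
  exact (SV.gw.mul ((SV.gw.mul SV.gc).neg)).vd

theorem Good.gone : Good EM e₀ M (fun _ => (1 : Y)) := by
  refine ⟨_, SV.gone, ?_⟩
  refine VD.congr (SV.gone.add SV.gone.neg).vd fun p _ => ?_
  ring

theorem Good.lift (O : Ops) : Good EM e₀ M (fun p => O.lift (z0 p.2)) := by
  refine ⟨_, SV.lift O (0 : Fin 1), ?_⟩
  exact (SV.gw.mul ((SV.gw.mul (SV.lift O (1 : Fin 2))).neg)).vd

theorem Good.J (O : Ops) {Φ : ℝ × E 0 → Y} (H : Good EM e₀ M Φ) :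
    Good EM e₀ M (fun p => O.J (Φ p)) := by
  have hv := H.vd1
  obtain ⟨Ψ, h, h'⟩ := H
  refine ⟨fun p => Pool.Agent.W668.Uni.c * lo EM 0 Φ p, ⟨h.s1.clm O.J (τY_J O), SE.gc.mul h.s1.lo,
    fun p _ => hasV_J O _⟩, ?_⟩
  exact SV.gw.vd.mul (SV.gc.vd.mul hv)

theorem Good.K (O : Ops) {Φ : ℝ × E 0 → Y} (H : Good EM e₀ M Φ) :
    Good EM e₀ M (fun p => O.K (Φ p)) := by
  have hv := H.vd1
  obtain ⟨Ψ, h, h'⟩ := H
  refine ⟨fun p => -(Pool.Agent.W668.Uni.c * lo EM 0 Φ p), ⟨h.s1.clm O.K (τY_K O),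
    (SE.gc.mul h.s1.lo).neg, fun p _ => hasV_K O _⟩, ?_⟩
  exact SV.gw.vd.mul (SV.gc.vd.mul hv).neg

end

end Pool.Agent.W758.Uni
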